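import Pool.Agent.TH98.SC.Topo

/-!
# MP_689e6f_al, Q1: strongly sigma-compact Morse boundaries give free subgroups

Sketch of the proof. Strong sigma-compactness gives a countable family of gauges `N i` such that
every stratum of the Morse boundary lies in one of the strata of the `N i`. Let `β` be a limit of
translates of a Morse ray (a bi-infinite Morse geodesic). A counting argument gives `g` such that
`g β` and `β` have no common end. Let `a` be a long segment of the ray (length at least `l`) whose
two ends look like `β`; then `a` and `g a g⁻¹` are the letters. If they do not generate a free
group of rank two, then for every `K` there is a shortest reduced word which is not good for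
`K`-quasi-geodesics. This word is good for all `K' ≤ (K - 3) / 4`, with constants which do not
depend on `K` and `l`. So all these words (with `K = 15 + j`, `l = l_j`) are uniformly Morse, hence
the rays which pass along them lie in the stratum of one gauge `N i`. When `l_j` is large compared
to `N i (K_j)` for all `i ≤ j`, this gives that the word number `i` is good for `K_i`, a
contradiction.
-/

set_option autoImplicit false

namespace Pool.Agent.Results.MP_689e6f_al.FreeSubgroup

open Pool.Agent.H659R3.MorseLim Pool.Agent.TH98.SC

/-- A finitely generated group whose Morse boundary is infinite and strongly sigma-compact has a
subgroup which is free of rank two. -/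
theorem result (G : Type) [Group G] (A : FinGen G) (hinf : Infinite (MorseBoundary A))
    (hsc : StronglySigmaCompact (MorseBoundary A)) :
    ∃ H : Subgroup G, Nonempty (H ≃* FreeGroup (Fin 2)) := by
  obtain ⟨f, hf⟩ := free_of_stronglySigmaCompact hinf hsc
  exact ⟨f.range, ⟨(f.ofInjective hf).symm.trans (FreeGroup.freeGroupCongr finTwoEquiv.symm)⟩⟩

end Pool.Agent.Results.MP_689e6f_al.FreeSubgroup
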